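import Pool.Agent.H48.RG.Defs

/-! Partial regularity of stationary harmonic maps (MP_2697e3_an), part B (gauge): existence of the
minimiser. Definitions and targets. -/

set_option autoImplicit false

namespace Pool.Agent.H30.RG

open MeasureTheory Metric Set Filter Topology Pool.Agent.H87.SN Pool.Agent.H48.RG
open scoped ContDiff RealInnerProductSpace ENNReal

noncomputable section

/-- Admissible matrices: orthogonal almost everywhere, with square integrable weak gradient. -/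
structure Adm {n m : ℕ} (P : Fin m → Fin m → E n → ℝ) (DP : Fin m → Fin m → E n → E n) : Prop where
  wb : ∀ i j, WB (ball 0 1) (P i j) (DP i j)
  orth : ∀ᵐ x ∂(volume.restrict (ball (0 : E n) 1)), ∀ i j,
    ∑ k, P k i x * P k j x = if i = j then 1 else 0

/-- The density `|∇P + Ω P|²`. -/
def FF {n m : ℕ} (Om : Fin m → Fin m → E n → E n) (P : Fin m → Fin m → E n → ℝ)
    (DP : Fin m → Fin m → E n → E n) (x : E n) : ℝ :=
  ∑ i, ∑ j, ‖DP i j x + ∑ k, P k j x • Om i k x‖ ^ 2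

/-- MIN: existence of the minimiser. -/
def T_MIN : Prop := ∀ (n m : ℕ) (Om : Fin m → Fin m → E n → E n),
    (∀ i j, MemLp (Om i j) 2 (volume.restrict (ball (0 : E n) 1))) →
    ∃ P DP, Adm P DP ∧ ∀ Q DQ, Adm Q DQ →
      ∫ x in ball (0 : E n) 1, FF Om P DP x ≤ ∫ x in ball (0 : E n) 1, FF Om Q DQ x

/-- REL: compactness (Rellich) of bounded sequences of functions with weak gradient. -/
def T_REL : Prop := ∀ (n : ℕ) (ι : Type) [Fintype ι] (R C : ℝ) (u : ℕ → ι → E n → ℝ)
    (D : ℕ → ι → E n → E n), 0 < R →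
    (∀ k i, MemLp (u k i) 2 (volume.restrict (ball (0 : E n) R))) →
    (∀ k i, MemLp (D k i) 2 (volume.restrict (ball (0 : E n) R))) →
    (∀ k i, WG (ball 0 R) (u k i) (D k i)) →
    (∀ k i, ∫ x in ball (0 : E n) R, ‖u k i x‖ ^ 2 ≤ C) →
    (∀ k i, ∫ x in ball (0 : E n) R, ‖D k i x‖ ^ 2 ≤ C) →
    ∃ (v : ι → E n → ℝ) (G : ι → E n → E n) (s : ℕ → ℕ), StrictMono s ∧
      (∀ i, MemLp (v i) 2 (volume.restrict (ball (0 : E n) R))) ∧
      (∀ i, MemLp (G i) 2 (volume.restrict (ball (0 : E n) R))) ∧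
      (∀ i, WG (ball 0 R) (v i) (G i)) ∧
      (∀ᵐ x ∂(volume.restrict (ball (0 : E n) R)), ∀ i,
        Tendsto (fun k => u (s k) i x) atTop (𝓝 (v i x))) ∧
      ∀ i (h : E n → E n), MemLp h 2 (volume.restrict (ball (0 : E n) R)) →
        Tendsto (fun k => ∫ x in ball (0 : E n) R, ⟪D (s k) i x, h x⟫) atTop
          (𝓝 (∫ x in ball (0 : E n) R, ⟪G i x, h x⟫))

end

end Pool.Agent.H30.RG
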