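import Pool.Agent.H39.RG.Targets
import Pool.Agent.H30.RG.Targets

/-! Partial regularity of stationary harmonic maps (MP_2697e3_an), part B (gauge): compactness of the
class of orthogonal matrices. -/

set_option autoImplicit false

namespace Pool.Agent.H30.RG

open MeasureTheory Metric Set Filter Topology Pool.Agent.H87.SN Pool.Agent.H48.RG Pool.Agent.H39.RG
open scoped ContDiff RealInnerProductSpace ENNReal

noncomputable section

/-- RLX: compactness of the class of orthogonal matrices with bounded energy. -/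
def T_RLX : Prop := ∀ (n m : ℕ) (B : ℝ) (P : ℕ → Fin m → Fin m → E n → ℝ)
    (DP : ℕ → Fin m → Fin m → E n → E n), (∀ k, OW (P k) (DP k)) →
    (∀ k i j, ∫ x in ball (0 : E n) 1, ‖DP k i j x‖ ^ 2 ≤ B) →
    ∃ (s : ℕ → ℕ) (Q : Fin m → Fin m → E n → ℝ) (DQ : Fin m → Fin m → E n → E n),
      StrictMono s ∧ OW Q DQ ∧
      (∀ᵐ x ∂(volume.restrict (ball (0 : E n) 1)), ∀ i j,
        Tendsto (fun k => P (s k) i j x) atTop (𝓝 (Q i j x))) ∧
      ∀ (i j : Fin m) (X : E n → E n), MemLp X 2 (volume.restrict (ball (0 : E n) 1)) →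
        Tendsto (fun k => ∫ x in ball (0 : E n) 1, ⟪DP (s k) i j x, X x⟫) atTop
          (𝓝 (∫ x in ball (0 : E n) 1, ⟪DQ i j x, X x⟫))

end

end Pool.Agent.H30.RG
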