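import Pool.Agent.H30.RG.RE2
import Pool.Agent.H30.RG.Targets2
import Pool.Agent.H39.RG.Rot

/-!
Compactness of the class of orthogonal matrices with bounded energy: row RLX.
(REG, part B, MP_2697e3_an)
-/

set_option autoImplicit false

namespace Pool.Agent.H30.RG

open MeasureTheory Filter Topology Set Metric Pool.Agent.H87.SN Pool.Agent.H48.RG Pool.Agent.H39.RG
open scoped RealInnerProductSpace ENNReal ContDiff

theorem pf_RLX : T_RLX := by
  intro n m B P DP hP hB
  set μ : Measure (E n) := volume.restrict (ball (0 : E n) 1) with hμ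
  -- the entries are bounded by one
  have hle : ∀ k, ∀ᵐ x ∂μ, ∀ i j, |P k i j x| ≤ 1 := by
    intro k
    filter_upwards [(hP k).orth] with x hx i j
    exact orth_le (fun i j => P k i j x) hx i j
  have hle2 : ∀ k i j, ∀ᵐ x ∂μ, ‖P k i j x‖ ≤ 1 := fun k i j => by
    filter_upwards [hle k] with x hx
    exact hx i j
  have hmem : ∀ k i j, MemLp (P k i j) 2 μ := fun k i j =>
    MemLp.of_bound ((hP k).wb i j).ms 1 (hle2 k i j)
  have hint : ∀ k i j, ∫ x in ball (0 : E n) 1, ‖P k i j x‖ ^ 2 ≤ μ.real univ := by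
    intro k i j
    have h1 : ∫ x, ‖P k i j x‖ ^ 2 ∂μ ≤ ∫ _x, (1 : ℝ) ∂μ := by
      refine integral_mono_ae ((hmem k i j).integrable_norm_pow (by norm_num))
        (integrable_const _) ?_
      filter_upwards [hle2 k i j] with x hx
      have := norm_nonneg (P k i j x)
      nlinarith
    refine h1.trans (le_of_eq ?_)
    rw [integral_const, smul_eq_mul, mul_one]
  obtain ⟨v, G, s, hs, hv, hG, hw, hae, hwk⟩ := pf_REL n (Fin m × Fin m) 1 (max B (μ.real univ))
    (fun k t => P k t.1 t.2) (fun k t => DP k t.1 t.2) one_pos (fun k t => hmem k t.1 t.2)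
    (fun k t => ((hP k).wb t.1 t.2).d2) (fun k t => ((hP k).wb t.1 t.2).wg)
    (fun k t => (hint k t.1 t.2).trans (le_max_right _ _))
    (fun k t => (hB k t.1 t.2).trans (le_max_left _ _))
  refine ⟨s, fun i j => v (i, j), fun i j => G (i, j), hs, ⟨fun i j => ⟨?_, ⟨1, ?_⟩, ?_, ?_⟩, ?_⟩,
    ?_, fun i j X hX => hwk (i, j) X hX⟩
  · exact (hv (i, j)).1
  · have h1 : ∀ᵐ x ∂μ, ∀ k, |P k i j x| ≤ 1 := by
      rw [ae_all_iff]
      intro k
      filter_upwards [hle k] with x hx
      exact hx i j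
    filter_upwards [h1, hae] with x hx hx2
    exact le_of_tendsto (hx2 (i, j)).abs (Eventually.of_forall fun k => hx (s k))
  · exact hG (i, j)
  · exact hw (i, j)
  · have h1 : ∀ᵐ x ∂μ, ∀ k i j, ∑ l, P k l i x * P k l j x = if i = j then 1 else 0 := by
      rw [ae_all_iff]
      intro k
      exact (hP k).orth
    filter_upwards [h1, hae] with x hx hx2 i j
    have h3 : Tendsto (fun k => ∑ l, P (s k) l i x * P (s k) l j x) atTop
        (𝓝 (∑ l, v (l, i) x * v (l, j) x)) :=
      tendsto_finsetSum _ fun l _ => (hx2 (l, i)).mul (hx2 (l, j))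
    exact tendsto_nhds_unique h3 ((tendsto_const_nhds (x := (if i = j then (1 : ℝ) else 0))).congr
      fun k => (hx (s k) i j).symm)
  · filter_upwards [hae] with x hx i j
    exact hx (i, j)

end Pool.Agent.H30.RG
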