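import Mathlib

/-!
Weak sequential compactness of bounded sequences in a Hilbert space, and in L^2.
(REG, part B, MP_2697e3_an)
-/

set_option autoImplicit false

namespace Pool.Agent.H30.RG

open MeasureTheory Filter Topology Set
open scoped RealInnerProductSpace ENNReal

/-- bounded families of vectors of a Hilbert space: weakly convergent subsequences -/
theorem hilbert_weak {H ι : Type*} [NormedAddCommGroup H] [InnerProductSpace ℝ H]
    [CompleteSpace H] [Countable ι] (x : ℕ → ι → H) (C : ℝ) (hx : ∀ k i, ‖x k i‖ ≤ C) :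
    ∃ (z : ι → H) (φ : ℕ → ℕ), StrictMono φ ∧ ∀ i v,
      Tendsto (fun k => ⟪x (φ k) i, v⟫) atTop (𝓝 ⟪z i, v⟫) := by
  classical
  -- the sequence of Gram matrices
  set g : ℕ → (ι × ℕ × ι → ℝ) := fun k t => ⟪x k t.1, x t.2.1 t.2.2⟫ with hg
  have hK : IsCompact (Set.pi univ fun _ : ι × ℕ × ι => Icc (-(C * C)) (C * C)) :=
    isCompact_univ_pi fun _ => isCompact_Icc
  have hgK : ∀ k, g k ∈ Set.pi univ fun _ : ι × ℕ × ι => Icc (-(C * C)) (C * C) := by
    intro k t _
    have h1 : |⟪x k t.1, x t.2.1 t.2.2⟫| ≤ ‖x k t.1‖ * ‖x t.2.1 t.2.2‖ :=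
      abs_real_inner_le_norm _ _
    have hC : 0 ≤ C := (norm_nonneg _).trans (hx k t.1)
    have h2 : ‖x k t.1‖ * ‖x t.2.1 t.2.2‖ ≤ C * C :=
      mul_le_mul (hx _ _) (hx _ _) (norm_nonneg _) hC
    exact abs_le.1 (h1.trans h2)
  obtain ⟨L, _, φ, hφ, hL⟩ := hK.tendsto_subseq hgK
  have hL' : ∀ t, Tendsto (fun k => g (φ k) t) atTop (𝓝 (L t)) := fun t =>
    (tendsto_pi_nhds.1 hL) t
  -- the submodule of good vectors
  have key : ∀ i : ι, ∃ z : H, ∀ v, Tendsto (fun k => ⟪x (φ k) i, v⟫) atTop (𝓝 ⟪z, v⟫) := by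
    intro i
    have hC : 0 ≤ C := (norm_nonneg _).trans (hx 0 i)
    let W : Submodule ℝ H :=
      { carrier := {v | ∃ l, Tendsto (fun k => ⟪x (φ k) i, v⟫) atTop (𝓝 l)}
        add_mem' := by
          rintro a b ⟨la, ha⟩ ⟨lb, hb⟩
          refine ⟨la + lb, ?_⟩
          simpa only [inner_add_right] using ha.add hb
        zero_mem' := ⟨0, by simp⟩
        smul_mem' := by
          rintro c a ⟨la, ha⟩
          refine ⟨c * la, ?_⟩
          simpa only [inner_smul_right] using ha.const_mul c }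
    have hWcl : IsClosed (W : Set H) := by
      rw [← isSeqClosed_iff_isClosed]
      intro w v hw hv
      change ∃ l, Tendsto (fun k => ⟪x (φ k) i, v⟫) atTop (𝓝 l)
      refine cauchySeq_tendsto_of_complete ?_
      rw [Metric.cauchySeq_iff]
      intro ε hε
      obtain ⟨N, hN⟩ := (Metric.tendsto_atTop.1 hv) (ε / (4 * (C + 1))) (by positivity)
      have h1 : ‖w N - v‖ < ε / (4 * (C + 1)) := by
        have := hN N le_rfl
        rwa [dist_eq_norm] at this
      obtain ⟨l, hl⟩ := hw N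
      obtain ⟨M, hM⟩ := (Metric.cauchySeq_iff.1 hl.cauchySeq) (ε / 2) (by positivity)
      refine ⟨M, fun a ha b hb => ?_⟩
      have h2 := hM a ha b hb
      rw [Real.dist_eq] at h2 ⊢
      have h3 : ∀ k, |⟪x (φ k) i, v⟫ - ⟪x (φ k) i, w N⟫| ≤ ε / 4 := by
        intro k
        rw [← inner_sub_right]
        refine (abs_real_inner_le_norm _ _).trans ?_
        rw [norm_sub_rev] at h1
        have h4 : ‖x (φ k) i‖ * ‖v - w N‖ ≤ C * (ε / (4 * (C + 1))) :=
          mul_le_mul (hx _ _) h1.le (norm_nonneg _) hC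
        refine h4.trans ?_
        rw [mul_div_assoc', div_le_div_iff₀ (by positivity) (by norm_num)]
        nlinarith
      have h5 := h3 a
      have h6 := h3 b
      have h7 : ⟪x (φ a) i, v⟫ - ⟪x (φ b) i, v⟫ =
          (⟪x (φ a) i, v⟫ - ⟪x (φ a) i, w N⟫) + (⟪x (φ a) i, w N⟫ - ⟪x (φ b) i, w N⟫)
            - (⟪x (φ b) i, v⟫ - ⟪x (φ b) i, w N⟫) := by ring
      rw [h7]
      rw [abs_le] at h5 h6
      rw [abs_lt] at h2 ⊢
      constructor <;> linarith [h5.1, h5.2, h6.1, h6.2, h2.1, h2.2]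
    set S : Submodule ℝ H := (Submodule.span ℝ (Set.range fun t : ℕ × ι => x t.1 t.2)).topologicalClosure
      with hS
    have hSW : S ≤ W := by
      refine Submodule.topologicalClosure_minimal _ ?_ hWcl
      rw [Submodule.span_le]
      rintro _ ⟨t, rfl⟩
      exact ⟨L (i, t.1, t.2), hL' (i, t.1, t.2)⟩
    have : CompleteSpace S := (Submodule.isClosed_topologicalClosure _).completeSpace_coe
    have hperp : ∀ v ∈ Sᗮ, ∀ k, ⟪x (φ k) i, v⟫ = 0 := by
      intro v hv k
      exact hv _ (Submodule.le_topologicalClosure _ (Submodule.subset_span ⟨(φ k, i), rfl⟩))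
    have hW : ∀ v, ∃ l, Tendsto (fun k => ⟪x (φ k) i, v⟫) atTop (𝓝 l) := by
      intro v
      obtain ⟨y, hy, z, hz, rfl⟩ := Submodule.exists_add_mem_mem_orthogonal (K := S) v
      obtain ⟨l, hl⟩ := hSW hy
      refine ⟨l, ?_⟩
      refine hl.congr fun k => ?_
      rw [inner_add_right, hperp z hz k, add_zero]
    choose l hl using hW
    let f : H →ₗ[ℝ] ℝ :=
      { toFun := l
        map_add' := fun a b => by
          refine tendsto_nhds_unique (hl (a + b)) ?_
          simpa only [inner_add_right] using (hl a).add (hl b)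
        map_smul' := fun c a => by
          refine tendsto_nhds_unique (hl (c • a)) ?_
          simpa only [inner_smul_right, RingHom.id_apply, smul_eq_mul] using (hl a).const_mul c }
    have hf : ∀ v, ‖f v‖ ≤ C * ‖v‖ := by
      intro v
      have h1 : Tendsto (fun k => |⟪x (φ k) i, v⟫|) atTop (𝓝 |l v|) := (hl v).abs
      refine le_of_tendsto h1 (Eventually.of_forall fun k => ?_)
      exact (abs_real_inner_le_norm _ _).trans
        (mul_le_mul_of_nonneg_right (hx _ _) (norm_nonneg _))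
    let F : StrongDual ℝ H := LinearMap.mkContinuous f C hf
    refine ⟨(InnerProductSpace.toDual ℝ H).symm F, fun v => ?_⟩
    rw [InnerProductSpace.toDual_symm_apply]
    exact hl v
  choose z hz using key
  exact ⟨z, φ, hφ, hz⟩

theorem norm_toLp_sq {α F : Type*} [MeasurableSpace α] {μ : Measure α} [NormedAddCommGroup F]
    [InnerProductSpace ℝ F] {f : α → F} (hf : MemLp f 2 μ) :
    ‖hf.toLp f‖ ^ 2 = ∫ x, ‖f x‖ ^ 2 ∂μ := by
  rw [← real_inner_self_eq_norm_sq, MeasureTheory.L2.inner_def]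
  refine integral_congr_ae ?_
  filter_upwards [hf.coeFn_toLp] with x hx
  rw [hx, real_inner_self_eq_norm_sq]

/-- bounded families in `L^2` have weakly convergent subsequences -/
theorem l2_weak {α F ι : Type*} [MeasurableSpace α] {μ : Measure α} [NormedAddCommGroup F]
    [InnerProductSpace ℝ F] [CompleteSpace F] [Countable ι] (f : ℕ → ι → α → F) (C : ℝ)
    (hf : ∀ k i, MemLp (f k i) 2 μ) (hC : ∀ k i, ∫ x, ‖f k i x‖ ^ 2 ∂μ ≤ C) :
    ∃ (g : ι → α → F) (φ : ℕ → ℕ), StrictMono φ ∧ (∀ i, MemLp (g i) 2 μ) ∧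
      ∀ i (h : α → F), MemLp h 2 μ →
        Tendsto (fun k => ∫ x, ⟪f (φ k) i x, h x⟫ ∂μ) atTop (𝓝 (∫ x, ⟪g i x, h x⟫ ∂μ)) := by
  obtain ⟨z, φ, hφ, hz⟩ := hilbert_weak (fun k i => (hf k i).toLp (f k i)) (Real.sqrt C)
    (fun k i => by
      refine Real.le_sqrt_of_sq_le ?_
      rw [norm_toLp_sq]
      exact hC k i)
  refine ⟨fun i => z i, φ, hφ, fun i => Lp.memLp (z i), fun i h hh => ?_⟩
  have h1 := hz i (hh.toLp h)
  have h2 : ∀ k, ⟪(hf (φ k) i).toLp (f (φ k) i), hh.toLp h⟫ = ∫ x, ⟪f (φ k) i x, h x⟫ ∂μ := by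
    intro k
    rw [MeasureTheory.L2.inner_def]
    refine integral_congr_ae ?_
    filter_upwards [hh.coeFn_toLp, (hf (φ k) i).coeFn_toLp] with x hx hy
    rw [hx, hy]
  have h3 : ⟪z i, hh.toLp h⟫ = ∫ x, ⟪(z i : α → F) x, h x⟫ ∂μ := by
    rw [MeasureTheory.L2.inner_def]
    refine integral_congr_ae ?_
    filter_upwards [hh.coeFn_toLp] with x hx
    rw [hx]
  rw [h3] at h1
  exact h1.congr h2

end Pool.Agent.H30.RG
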