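import Pool.Agent.H30.RG.MOL

/-!
Mollification of functions with weak gradients: the translation estimate.
(REG, part B, MP_2697e3_an)
-/

set_option autoImplicit false

namespace Pool.Agent.H30.RG

open MeasureTheory Filter Topology Set Metric Pool.Agent.H87.SN Pool.Agent.H48.RG
open scoped RealInnerProductSpace ENNReal ContDiff Convolution

/-- increments of a `C^1` function are bounded by the integral of the derivative -/
theorem enorm_sub_le_lint {n : ℕ} {g : E n → ℝ} (hg : ContDiff ℝ ∞ g) (x z : E n) :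
    ‖g x - g (x - z)‖ₑ ≤ ∫⁻ t in Icc (0 : ℝ) 1, ‖fderiv ℝ g (x - t • z) z‖ₑ := by
  have hd : ∀ t : ℝ, HasDerivAt (fun t : ℝ => g (x - t • z)) (- fderiv ℝ g (x - t • z) z) t := by
    intro t
    have h1 : HasFDerivAt g (fderiv ℝ g (x - t • z)) (x - t • z) :=
      (hg.differentiable (by norm_num)).differentiableAt.hasFDerivAt
    have h2 : HasDerivAt (fun t : ℝ => x - t • z) (-z) t := by
      have h3 : HasDerivAt (fun t : ℝ => t • z) ((1 : ℝ) • z) t := (hasDerivAt_id t).smul_const z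
      rw [one_smul] at h3
      simpa using h3.const_sub x
    have h4 : HasDerivAt (fun t : ℝ => g (x - t • z)) (fderiv ℝ g (x - t • z) (-z)) t :=
      h1.comp_hasDerivAt t h2
    rwa [map_neg] at h4
  have hc : Continuous fun t : ℝ => - fderiv ℝ g (x - t • z) z := by
    have h1 : Continuous (fderiv ℝ g) := hg.continuous_fderiv (by norm_num)
    exact ((h1.comp (by fun_prop)).clm_apply continuous_const).neg
  have h1 := intervalIntegral.integral_eq_sub_of_hasDerivAt (a := 0) (b := 1)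
    (fun t _ => hd t) (hc.intervalIntegrable 0 1)
  simp only [one_smul, zero_smul, sub_zero] at h1
  have h2 : g x - g (x - z) = - ∫ t in (0 : ℝ)..1, - fderiv ℝ g (x - t • z) z := by
    rw [h1]
    ring
  rw [h2, enorm_neg, intervalIntegral.integral_of_le (by norm_num)]
  refine (enorm_integral_le_lintegral_enorm _).trans ?_
  simp only [enorm_neg]
  exact lintegral_mono_set Ioc_subset_Icc_self

theorem trans_ml {n : ℕ} {R δ h : ℝ} {k : E n → ℝ} (hk : ContDiff ℝ ∞ k)
    (hs : tsupport k ⊆ closedBall 0 δ) (hk1 : ∫⁻ x, ‖k x‖ₑ ≤ 1) {f : E n → ℝ} {D : E n → E n}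
    (hf : IntegrableOn f (ball (0 : E n) R)) (hD : IntegrableOn D (ball (0 : E n) R))
    (hw : WG (ball 0 R) f D) {z : E n} (hz : ‖z‖ + δ ≤ h) :
    ∫⁻ x in ball (0 : E n) (R - h), ‖ml k R f x - ml k R f (x - z)‖ₑ ≤
      ‖z‖ₑ * ∫⁻ y in ball (0 : E n) R, ‖D y‖ₑ := by
  classical
  -- a measurable version of the norm of D
  have hNm : AEMeasurable (fun y => ‖D y‖ₑ) (volume.restrict (ball (0 : E n) R)) := hD.1.enorm
  set N : E n → ℝ≥0∞ := hNm.mk _ with hN
  have hNmeas : Measurable N := hNm.measurable_mk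
  have hNae : ∀ᵐ y ∂(volume.restrict (ball (0 : E n) R)), ‖D y‖ₑ = N y := hNm.ae_eq_mk
  have hkm : Measurable fun x => ‖k x‖ₑ := hk.continuous.measurable.enorm
  -- pointwise bound
  have h1 : ∀ x ∈ ball (0 : E n) (R - h), ‖ml k R f x - ml k R f (x - z)‖ₑ ≤
      ∫⁻ t in Icc (0 : ℝ) 1, ∫⁻ y in ball (0 : E n) R, ‖k (x - t • z - y)‖ₑ * (N y * ‖z‖ₑ) := by
    intro x hx
    have hc : HasCompactSupport k := HasCompactSupport.of_support_subset_isCompact
      (isCompact_closedBall (0 : E n) δ) ((subset_tsupport k).trans hs)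
    refine (enorm_sub_le_lint (contDiff_ml hk hc hf) x z).trans ?_
    refine setLIntegral_mono' measurableSet_Icc fun t ht => ?_
    have hx' : ‖x - t • z‖ + δ < R := by
      rw [mem_ball, dist_zero_right] at hx
      have h2 : ‖x - t • z‖ ≤ ‖x‖ + ‖z‖ := by
        refine (norm_sub_le _ _).trans ?_
        rw [norm_smul, Real.norm_eq_abs, abs_of_nonneg ht.1]
        nlinarith [norm_nonneg z, ht.2]
      linarith
    rw [fderiv_ml hk hs hf hw hx' z]
    refine (enorm_integral_le_lintegral_enorm _).trans ?_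
    have h3 : ∫⁻ y in ball (0 : E n) R, ‖k (x - t • z - y)‖ₑ * (N y * ‖z‖ₑ) =
        ∫⁻ y in ball (0 : E n) R, ‖k (x - t • z - y)‖ₑ * (‖D y‖ₑ * ‖z‖ₑ) := by
      refine lintegral_congr_ae ?_
      filter_upwards [hNae] with y hy
      rw [hy]
    rw [h3]
    refine lintegral_mono fun y => ?_
    rw [enorm_mul]
    refine mul_le_mul' le_rfl ?_
    rw [← ofReal_norm, ← ofReal_norm, ← ofReal_norm, ← ENNReal.ofReal_mul (norm_nonneg _)]
    exact ENNReal.ofReal_le_ofReal (norm_inner_le_norm _ _)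
  have hjm : Measurable fun p : (E n × ℝ) × E n =>
      ‖k (p.1.1 - p.1.2 • z - p.2)‖ₑ * (N p.2 * ‖z‖ₑ) := by
    refine Measurable.mul ?_ ((hNmeas.comp measurable_snd).mul_const _)
    exact hkm.comp (by fun_prop)
  calc ∫⁻ x in ball (0 : E n) (R - h), ‖ml k R f x - ml k R f (x - z)‖ₑ
      ≤ ∫⁻ x in ball (0 : E n) (R - h), ∫⁻ t in Icc (0 : ℝ) 1, ∫⁻ y in ball (0 : E n) R,
          ‖k (x - t • z - y)‖ₑ * (N y * ‖z‖ₑ) := setLIntegral_mono' measurableSet_ball h1
    _ ≤ ∫⁻ x, ∫⁻ t in Icc (0 : ℝ) 1, ∫⁻ y in ball (0 : E n) R,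
          ‖k (x - t • z - y)‖ₑ * (N y * ‖z‖ₑ) := setLIntegral_le_lintegral _ _
    _ = ∫⁻ t in Icc (0 : ℝ) 1, ∫⁻ x, ∫⁻ y in ball (0 : E n) R,
          ‖k (x - t • z - y)‖ₑ * (N y * ‖z‖ₑ) := by
        refine lintegral_lintegral_swap ?_
        exact (hjm.lintegral_prod_right' (ν := volume.restrict (ball (0 : E n) R))).aemeasurable
    _ = ∫⁻ t in Icc (0 : ℝ) 1, ∫⁻ y in ball (0 : E n) R, ∫⁻ x,
          ‖k (x - t • z - y)‖ₑ * (N y * ‖z‖ₑ) := by
        refine lintegral_congr fun t => ?_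
        refine lintegral_lintegral_swap ?_
        have hj2 : Measurable fun p : E n × E n => ‖k (p.1 - t • z - p.2)‖ₑ := by
          exact hkm.comp (by fun_prop)
        exact (hj2.mul ((hNmeas.comp measurable_snd).mul_const _)).aemeasurable
    _ ≤ ∫⁻ t in Icc (0 : ℝ) 1, ∫⁻ y in ball (0 : E n) R, N y * ‖z‖ₑ := by
        refine lintegral_mono fun t => lintegral_mono fun y => ?_
        have hj3 : Measurable fun x : E n => ‖k (x - t • z - y)‖ₑ := by
          exact hkm.comp (by fun_prop)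
        rw [lintegral_mul_const _ hj3]
        have h5 : ∫⁻ x, ‖k (x - t • z - y)‖ₑ = ∫⁻ x, ‖k x‖ₑ := by
          have h6 : ∀ x : E n, x - t • z - y = x - (t • z + y) := fun x => by abel
          simp only [h6]
          exact lintegral_sub_right_eq_self (fun x => ‖k x‖ₑ) (t • z + y)
        rw [h5]
        exact mul_le_of_le_one_left' hk1
    _ = ‖z‖ₑ * ∫⁻ y in ball (0 : E n) R, ‖D y‖ₑ := by
        rw [lintegral_congr_ae hNae, lintegral_const, lintegral_mul_const _ hNmeas]
        simp [mul_comm]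

end Pool.Agent.H30.RG
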