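import Pool.Agent.H30.RG.MO2

/-!
Mollification of functions with weak gradients: the `L^1` estimate.
(REG, part B, MP_2697e3_an)
-/

set_option autoImplicit false

namespace Pool.Agent.H30.RG

open MeasureTheory Filter Topology Set Metric Pool.Agent.H87.SN Pool.Agent.H48.RG
open scoped RealInnerProductSpace ENNReal ContDiff Convolution

theorem lint_bump {n : ℕ} (b : ContDiffBump (0 : E n)) :
    ∫⁻ x, ‖b.normed volume x‖ₑ = 1 := by
  have h1 : ∫⁻ x, ‖b.normed volume x‖ₑ = ∫⁻ x, ENNReal.ofReal (b.normed volume x) :=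
    lintegral_congr fun x => Real.enorm_eq_ofReal (b.nonneg_normed x)
  rw [h1, ← ofReal_integral_eq_lintegral_ofReal b.integrable_normed
    (Eventually.of_forall fun x => b.nonneg_normed x), b.integral_normed, ENNReal.ofReal_one]

/-- the bump of radius `δ` -/
noncomputable def bmp (n : ℕ) (δ : ℝ) (hδ : 0 < δ) : ContDiffBump (0 : E n) :=
  { rIn := δ / 2
    rOut := δ
    rIn_pos := by linarith
    rIn_lt_rOut := by linarith }

theorem trans_f {n : ℕ} {R h : ℝ} {f : E n → ℝ} {D : E n → E n}
    (hf : IntegrableOn f (ball (0 : E n) R)) (hD : IntegrableOn D (ball (0 : E n) R))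
    (hw : WG (ball 0 R) f D) {z : E n} (hz : ‖z‖ < h) :
    ∫⁻ x in ball (0 : E n) (R - h),
      ‖(ball (0 : E n) R).indicator f x - (ball (0 : E n) R).indicator f (x - z)‖ₑ ≤
      ‖z‖ₑ * ∫⁻ y in ball (0 : E n) R, ‖D y‖ₑ := by
  set δ : ℕ → ℝ := fun j => (h - ‖z‖) / ((j : ℝ) + 1) with hδdef
  have hpos : 0 < h - ‖z‖ := by linarith
  have hδ : ∀ j, 0 < δ j := fun j => by positivity
  have hδ1 : ∀ j, δ j ≤ h - ‖z‖ := fun j => by
    refine div_le_self hpos.le ?_
    have : (0 : ℝ) ≤ j := Nat.cast_nonneg j
    linarith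
  have hδ0 : Tendsto δ atTop (𝓝 0) := by
    have h1 : Tendsto (fun j : ℕ => (j : ℝ) + 1) atTop atTop :=
      tendsto_atTop_add_const_right _ _ tendsto_natCast_atTop_atTop
    exact h1.const_div_atTop _
  set b : ℕ → ContDiffBump (0 : E n) := fun j => bmp n (δ j) (hδ j) with hb
  have hlim := ContDiffBump.ae_convolution_tendsto_right_of_locallyIntegrable (μ := volume)
    (φ := b) (l := atTop) (K := 2) (g := (ball (0 : E n) R).indicator f) hδ0
    (Eventually.of_forall fun j => by
      change δ j ≤ 2 * (δ j / 2)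
      linarith) (locInt_ind hf)
  have hlim1 : ∀ᵐ x : E n, Tendsto (fun j => ml ((b j).normed volume) R f x) atTop
      (𝓝 ((ball (0 : E n) R).indicator f x)) := by
    filter_upwards [hlim] with x hx
    simpa only [ml_eq_conv] using hx
  have hlim2 : ∀ᵐ x : E n, Tendsto (fun j => ml ((b j).normed volume) R f (x - z)) atTop
      (𝓝 ((ball (0 : E n) R).indicator f (x - z))) :=
    (measurePreserving_sub_right volume z).quasiMeasurePreserving.ae hlim1
  have hlim3 : ∀ᵐ x ∂(volume.restrict (ball (0 : E n) (R - h))),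
      liminf (fun j => ‖ml ((b j).normed volume) R f x - ml ((b j).normed volume) R f (x - z)‖ₑ)
        atTop = ‖(ball (0 : E n) R).indicator f x - (ball (0 : E n) R).indicator f (x - z)‖ₑ := by
    refine ae_restrict_of_ae ?_
    filter_upwards [hlim1, hlim2] with x h1 h2
    exact ((continuous_enorm.tendsto _).comp (h1.sub h2)).liminf_eq
  have hcd : ∀ j, ContDiff ℝ ∞ (ml ((b j).normed volume) R f) := fun j =>
    contDiff_ml ((b j).contDiff_normed (n := ⊤)) ((b j).hasCompactSupport_normed) hf
  calc ∫⁻ x in ball (0 : E n) (R - h),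
        ‖(ball (0 : E n) R).indicator f x - (ball (0 : E n) R).indicator f (x - z)‖ₑ
      = ∫⁻ x in ball (0 : E n) (R - h), liminf (fun j =>
          ‖ml ((b j).normed volume) R f x - ml ((b j).normed volume) R f (x - z)‖ₑ) atTop :=
        (lintegral_congr_ae hlim3).symm
    _ ≤ liminf (fun j => ∫⁻ x in ball (0 : E n) (R - h),
          ‖ml ((b j).normed volume) R f x - ml ((b j).normed volume) R f (x - z)‖ₑ) atTop := by
        refine lintegral_liminf_le' fun j => ?_
        have h1 : Continuous fun x => ml ((b j).normed volume) R f x -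
            ml ((b j).normed volume) R f (x - z) :=
          (hcd j).continuous.sub ((hcd j).continuous.comp (continuous_id.sub continuous_const))
        exact h1.measurable.enorm.aemeasurable
    _ ≤ ‖z‖ₑ * ∫⁻ y in ball (0 : E n) R, ‖D y‖ₑ := by
        refine liminf_le_of_le (by isBoundedDefault) fun c hc => ?_
        obtain ⟨j, hj⟩ := hc.exists
        refine hj.trans ?_
        refine trans_ml (δ := δ j) (h := h) ((b j).contDiff_normed (n := ⊤)) ?_ (lint_bump _).le
          hf hD hw ?_
        · exact ((b j).tsupport_normed_eq (μ := volume)).le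
        · have := hδ1 j
          linarith

theorem ml_sub {n : ℕ} {R δ h : ℝ} {k : E n → ℝ} (hk : ContDiff ℝ ∞ k)
    (hs : tsupport k ⊆ closedBall 0 δ) (hδh : δ < h) (hki : ∫ x, k x = 1)
    (hk1 : ∫⁻ x, ‖k x‖ₑ ≤ 1) {f : E n → ℝ} {D : E n → E n}
    (hf : IntegrableOn f (ball (0 : E n) R)) (hD : IntegrableOn D (ball (0 : E n) R))
    (hw : WG (ball 0 R) f D) :
    ∫⁻ x in ball (0 : E n) (R - h), ‖ml k R f x - (ball (0 : E n) R).indicator f x‖ₑ ≤
      ENNReal.ofReal δ * ∫⁻ y in ball (0 : E n) R, ‖D y‖ₑ := by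
  have hc : HasCompactSupport k := HasCompactSupport.of_support_subset_isCompact
    (isCompact_closedBall (0 : E n) δ) ((subset_tsupport k).trans hs)
  set F : E n → ℝ := (ball (0 : E n) R).indicator f with hF
  have hFi : Integrable F volume := (integrable_indicator_iff measurableSet_ball).2 hf
  have hkI : Integrable k volume := hk.continuous.integrable_of_hasCompactSupport hc
  have hkm : Measurable fun x => ‖k x‖ₑ := hk.continuous.measurable.enorm
  have h1 : ∀ x, ml k R f x - F x = ∫ z, k z * (F (x - z) - F x) := by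
    intro x
    have h2 : Integrable (fun z => k z * F (x - z)) volume := by
      have := (hc.convolutionExists_left (L := ContinuousLinearMap.lsmul ℝ ℝ) (μ := volume)
        hk.continuous hFi.locallyIntegrable x).integrable
      simpa only [ContinuousLinearMap.lsmul_apply, smul_eq_mul] using this
    have h3 : Integrable (fun z => k z * F x) volume := hkI.mul_const _
    have h4 : ml k R f x = ∫ z, k z * F (x - z) := by
      rw [← ml_eq_conv, convolution_def]
      simp only [ContinuousLinearMap.lsmul_apply, smul_eq_mul, hF]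
    have h5 : F x = ∫ z, k z * F x := by
      rw [integral_mul_const, hki, one_mul]
    have h6 : ∫ z, k z * (F (x - z) - F x) = ∫ z, (k z * F (x - z) - k z * F x) :=
      integral_congr_ae (Eventually.of_forall fun z => by ring)
    rw [h6, integral_sub h2 h3, ← h5, ← h4]
  have h2 : ∀ x, ‖ml k R f x - F x‖ₑ ≤ ∫⁻ z, ‖k z‖ₑ * ‖F x - F (x - z)‖ₑ := by
    intro x
    rw [h1 x]
    refine (enorm_integral_le_lintegral_enorm _).trans (lintegral_mono fun z => ?_)
    rw [enorm_mul, ← enorm_neg (F (x - z) - F x), neg_sub]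
  have hmeas : AEMeasurable (Function.uncurry fun (x : E n) (z : E n) =>
      ‖k z‖ₑ * ‖F x - F (x - z)‖ₑ)
      ((volume.restrict (ball (0 : E n) (R - h))).prod volume) := by
    have h3 : AEMeasurable (fun p : E n × E n => ‖k p.2‖ₑ * ‖F p.1 - F (p.1 - p.2)‖ₑ)
        ((volume : Measure (E n)).prod volume) := by
      refine AEMeasurable.mul (hkm.comp measurable_snd).aemeasurable ?_
      have h4 : AEStronglyMeasurable (fun p : E n × E n => F (p.1 - p.2))
          ((volume : Measure (E n)).prod volume) :=
        hFi.aestronglyMeasurable.comp_quasiMeasurePreserving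
          (quasiMeasurePreserving_sub (μ := (volume : Measure (E n))) (ν := volume))
      have h5 : AEStronglyMeasurable (fun p : E n × E n => F p.1)
          ((volume : Measure (E n)).prod volume) := hFi.aestronglyMeasurable.comp_fst
      exact (h5.sub h4).enorm
    exact h3.mono_ac (Measure.AbsolutelyContinuous.prod
      Measure.restrict_le_self.absolutelyContinuous Measure.AbsolutelyContinuous.rfl)
  calc ∫⁻ x in ball (0 : E n) (R - h), ‖ml k R f x - F x‖ₑ
      ≤ ∫⁻ x in ball (0 : E n) (R - h), ∫⁻ z, ‖k z‖ₑ * ‖F x - F (x - z)‖ₑ :=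
        lintegral_mono fun x => h2 x
    _ = ∫⁻ z, ∫⁻ x in ball (0 : E n) (R - h), ‖k z‖ₑ * ‖F x - F (x - z)‖ₑ :=
        lintegral_lintegral_swap hmeas
    _ ≤ ∫⁻ z, ‖k z‖ₑ * (ENNReal.ofReal δ * ∫⁻ y in ball (0 : E n) R, ‖D y‖ₑ) := by
        refine lintegral_mono fun z => ?_
        rw [lintegral_const_mul' _ _ enorm_ne_top]
        by_cases hz : z ∈ closedBall (0 : E n) δ
        · refine mul_le_mul' le_rfl ?_
          rw [mem_closedBall, dist_zero_right] at hz
          refine (trans_f hf hD hw (lt_of_le_of_lt hz hδh)).trans ?_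
          refine mul_le_mul' ?_ le_rfl
          rw [← ofReal_norm]
          exact ENNReal.ofReal_le_ofReal hz
        · have : k z = 0 := by
            by_contra h0
            exact hz (hs (subset_tsupport _ h0))
          rw [this]
          simp
    _ ≤ ENNReal.ofReal δ * ∫⁻ y in ball (0 : E n) R, ‖D y‖ₑ := by
        rw [lintegral_mul_const _ hkm]
        exact mul_le_of_le_one_left' hk1

end Pool.Agent.H30.RG
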