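import Pool.Agent.H30.RG.Targets

/-!
Mollification of functions with weak gradients: quantitative estimates in `L^1`.
(REG, part B, MP_2697e3_an)
-/

set_option autoImplicit false

namespace Pool.Agent.H30.RG

open MeasureTheory Filter Topology Set Metric Pool.Agent.H87.SN Pool.Agent.H48.RG
open scoped RealInnerProductSpace ENNReal ContDiff Convolution

/-- mollification of `f` restricted to a ball -/
noncomputable def ml {n : ℕ} (k : E n → ℝ) (R : ℝ) (f : E n → ℝ) (x : E n) : ℝ :=
  ∫ y in ball (0 : E n) R, k (x - y) * f y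

theorem ml_eq_conv {n : ℕ} (k : E n → ℝ) (R : ℝ) (f : E n → ℝ) (x : E n) :
    (k ⋆[ContinuousLinearMap.lsmul ℝ ℝ, volume] ((ball (0 : E n) R).indicator f)) x =
      ml k R f x := by
  rw [convolution_eq_swap, ml, ← integral_indicator measurableSet_ball]
  refine integral_congr_ae (Eventually.of_forall fun y => ?_)
  by_cases hy : y ∈ ball (0 : E n) R
  · simp [hy]
  · simp [hy]

theorem locInt_ind {n : ℕ} {R : ℝ} {F : Type*} [NormedAddCommGroup F] {f : E n → F}
    (hf : IntegrableOn f (ball (0 : E n) R)) :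
    LocallyIntegrable ((ball (0 : E n) R).indicator f) volume :=
  ((integrable_indicator_iff measurableSet_ball).2 hf).locallyIntegrable

theorem contDiff_ml {n : ℕ} {R : ℝ} {k : E n → ℝ} (hk : ContDiff ℝ ∞ k)
    (hc : HasCompactSupport k) {f : E n → ℝ} (hf : IntegrableOn f (ball (0 : E n) R)) :
    ContDiff ℝ ∞ (ml k R f) := by
  have h := hc.contDiff_convolution_left (L := ContinuousLinearMap.lsmul ℝ ℝ) (μ := volume)
    (n := ⊤) hk (locInt_ind hf)
  have h2 : (k ⋆[ContinuousLinearMap.lsmul ℝ ℝ, volume] ((ball (0 : E n) R).indicator f)) =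
      ml k R f := funext fun x => ml_eq_conv k R f x
  rwa [h2] at h

theorem fderiv_ml {n : ℕ} {R δ : ℝ} {k : E n → ℝ} (hk : ContDiff ℝ ∞ k)
    (hs : tsupport k ⊆ closedBall 0 δ) {f : E n → ℝ} {D : E n → E n}
    (hf : IntegrableOn f (ball (0 : E n) R)) (hw : WG (ball 0 R) f D) {x : E n}
    (hx : ‖x‖ + δ < R) (v : E n) :
    fderiv ℝ (ml k R f) x v = ∫ y in ball (0 : E n) R, k (x - y) * ⟪D y, v⟫ := by
  have hc : HasCompactSupport k := HasCompactSupport.of_support_subset_isCompact
    (isCompact_closedBall (0 : E n) δ) ((subset_tsupport k).trans hs)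
  have h1 := hc.hasFDerivAt_convolution_left (L := ContinuousLinearMap.lsmul ℝ ℝ) (μ := volume)
    (hk.of_le (by norm_cast)) (locInt_ind hf) x
  have h2 : (k ⋆[ContinuousLinearMap.lsmul ℝ ℝ, volume] ((ball (0 : E n) R).indicator f)) =
      ml k R f := funext fun x => ml_eq_conv k R f x
  rw [h2] at h1
  rw [h1.fderiv, convolution_eq_swap]
  have hint := (hc.fderiv (𝕜 := ℝ)).convolutionExists_left
    (L := (ContinuousLinearMap.lsmul ℝ ℝ : ℝ →L[ℝ] ℝ →L[ℝ] ℝ).precompL (E n)) (μ := volume)
    (hk.continuous_fderiv (by norm_num)) (locInt_ind hf) x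
  have hint2 := hint.integrable_swap
  rw [ContinuousLinearMap.integral_apply hint2]
  -- the test function
  set ψ : E n → ℝ := fun y => k (x - y) with hψ
  have hψs : tsupport ψ ⊆ closedBall x δ := by
    refine closure_minimal ?_ isClosed_closedBall
    intro y hy
    have h3 : x - y ∈ tsupport k := subset_tsupport _ hy
    have h4 := hs h3
    rw [mem_closedBall, dist_zero_right] at h4
    rwa [mem_closedBall, dist_comm, dist_eq_norm]
  have hsub : closedBall x δ ⊆ ball (0 : E n) R := by
    intro y hy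
    rw [mem_closedBall, dist_eq_norm] at hy
    rw [mem_ball, dist_zero_right]
    calc ‖y‖ = ‖(y - x) + x‖ := by rw [sub_add_cancel]
      _ ≤ ‖y - x‖ + ‖x‖ := norm_add_le _ _
      _ < R := by linarith
  have hψc : ContDiff ℝ ∞ ψ := hk.comp (contDiff_const.sub contDiff_id)
  have htest : Tst (ball (0 : E n) R) ψ := by
    refine ⟨hψc, ?_, hψs.trans hsub⟩
    exact HasCompactSupport.of_support_subset_isCompact (isCompact_closedBall x δ)
      ((subset_tsupport ψ).trans hψs)
  have hder : ∀ y, fderiv ℝ ψ y v = - fderiv ℝ k (x - y) v := by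
    intro y
    have h5 : HasFDerivAt ψ ((fderiv ℝ k (x - y)).comp (0 - ContinuousLinearMap.id ℝ (E n))) y := by
      have h6 : HasFDerivAt k (fderiv ℝ k (x - y)) (x - y) :=
        (hk.differentiable (by norm_num)).differentiableAt.hasFDerivAt
      exact h6.comp y ((hasFDerivAt_const x y).sub (hasFDerivAt_id y))
    rw [h5.fderiv]
    simp
  have h7 := hw ψ htest v
  -- outside the ball everything vanishes
  have hzero : ∀ y, y ∉ ball (0 : E n) R → ψ y = 0 := by
    intro y hy
    by_contra h0
    exact hy (hsub (hψs (subset_tsupport _ h0)))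
  have hzero' : ∀ y, y ∉ ball (0 : E n) R → fderiv ℝ ψ y v = 0 := by
    intro y hy
    have : y ∉ tsupport ψ := fun h => hy (hsub (hψs h))
    rw [fderiv_of_notMem_tsupport ℝ this]
    simp
  have h8 : (∫ y, ((ContinuousLinearMap.lsmul ℝ ℝ : ℝ →L[ℝ] ℝ →L[ℝ] ℝ).precompL (E n)
      (fderiv ℝ k (x - y)) ((ball (0 : E n) R).indicator f y)) v) = - ∫ y, fderiv ℝ ψ y v * f y := by
    rw [← integral_neg]
    refine integral_congr_ae (Eventually.of_forall fun y => ?_)
    simp only [ContinuousLinearMap.precompL_apply, ContinuousLinearMap.lsmul_apply, smul_eq_mul]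
    by_cases hy : y ∈ ball (0 : E n) R
    · rw [indicator_of_mem hy, hder y]
      ring
    · rw [indicator_of_notMem hy, hzero' y hy]
      ring
  rw [h8, h7, neg_neg, ← integral_indicator measurableSet_ball]
  refine integral_congr_ae (Eventually.of_forall fun y => ?_)
  by_cases hy : y ∈ ball (0 : E n) R
  · simp only [indicator_of_mem hy, hψ]
  · simp only [indicator_of_notMem hy, hzero y hy, zero_mul]

end Pool.Agent.H30.RG
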