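import Pool.Agent.H30.RG.REL

/-!
Rellich's theorem on a ball, for finite families of functions: row REL.
(REG, part B, MP_2697e3_an)
-/

set_option autoImplicit false

namespace Pool.Agent.H30.RG

open MeasureTheory Filter Topology Set Metric Pool.Agent.H87.SN Pool.Agent.H48.RG
open scoped RealInnerProductSpace ENNReal ContDiff Convolution

theorem tst_zero {n : ℕ} {U : Set (E n)} {φ : E n → ℝ} (hφ : Tst U φ) {x : E n} (hx : x ∉ U) :
    φ x = 0 ∧ fderiv ℝ φ x = 0 := by
  have h1 : x ∉ tsupport φ := fun h => hx (hφ.2.2 h)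
  exact ⟨image_eq_zero_of_notMem_tsupport h1, fderiv_of_notMem_tsupport ℝ h1⟩

theorem wg_set {n : ℕ} {U : Set (E n)} {f : E n → ℝ} {D : E n → E n} :
    WG U f D ↔ ∀ φ : E n → ℝ, Tst U φ → ∀ v : E n,
      ∫ x in U, f x * fderiv ℝ φ x v = - ∫ x in U, ⟪D x, φ x • v⟫ := by
  have h1 : ∀ φ : E n → ℝ, Tst U φ → ∀ v : E n,
      ∫ x in U, f x * fderiv ℝ φ x v = ∫ x, fderiv ℝ φ x v * f x := by
    intro φ hφ v
    rw [setIntegral_eq_integral_of_forall_compl_eq_zero]
    · exact integral_congr_ae (Eventually.of_forall fun x => mul_comm _ _)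
    · intro x hx
      rw [(tst_zero hφ hx).2]
      simp
  have h2 : ∀ φ : E n → ℝ, Tst U φ → ∀ v : E n,
      ∫ x in U, ⟪D x, φ x • v⟫ = ∫ x, φ x * ⟪D x, v⟫ := by
    intro φ hφ v
    rw [setIntegral_eq_integral_of_forall_compl_eq_zero]
    · exact integral_congr_ae (Eventually.of_forall fun x => by
        change ⟪D x, φ x • v⟫ = φ x * ⟪D x, v⟫
        rw [inner_smul_right])
    · intro x hx
      rw [(tst_zero hφ hx).1]
      simp
  constructor
  · intro h φ hφ v
    rw [h1 φ hφ v, h2 φ hφ v]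
    exact h φ hφ v
  · intro h φ hφ v
    rw [← h1 φ hφ v, ← h2 φ hφ v]
    exact h φ hφ v

theorem pf_REL : T_REL := by
  classical
  intro n ι _ R C u D hR hu hD hw hub hDb
  set μ : Measure (E n) := volume.restrict (ball (0 : E n) R) with hμ
  obtain ⟨v, s1, hs1, hv, hvw⟩ := l2_weak u C hu hub
  obtain ⟨G, s2, hs2, hG, hGw⟩ := l2_weak (fun k => D (s1 k)) C (fun k i => hD _ i)
    (fun k i => hDb _ i)
  have hv2 : ∀ i (g : E n → ℝ), MemLp g 2 μ →
      Tendsto (fun k => ∫ x, u (s1 (s2 k)) i x * g x ∂μ) atTop (𝓝 (∫ x, v i x * g x ∂μ)) := by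
    intro i g hg
    have h1 := (hvw i g hg).comp hs2.tendsto_atTop
    have h2 : ∀ a b : ℝ, ⟪a, b⟫ = a * b := fun a b => by
      rw [real_inner_eq_re_inner, mul_comm]
      rfl
    simp only [h2] at h1
    exact h1
  -- the weak gradient of the limit
  have hwv : ∀ i, WG (ball 0 R) (v i) (G i) := by
    intro i
    rw [wg_set]
    intro φ hφ w
    have hφd : Continuous fun x => fderiv ℝ φ x w :=
      (hφ.1.continuous_fderiv (by norm_num)).clm_apply continuous_const
    have h1 := hv2 i (fun x => fderiv ℝ φ x w) (memLp_cont hφd)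
    have h2 := (hGw i (fun x => φ x • w) (memLp_cont (hφ.1.continuous.smul continuous_const))).neg
    refine tendsto_nhds_unique (h1.congr fun k => ?_) h2
    exact wg_set.1 (hw (s1 (s2 k)) i) φ hφ w
  -- strong convergence
  have hst : ∀ i, Tendsto (fun k => ∫⁻ x, ‖(R - ‖x‖) * (u (s1 (s2 k)) i x - v i x)‖ₑ ∂μ) atTop
      (𝓝 0) := fun i => weak_strong hR (fun k => u (s1 (s2 k)) i) (fun k => D (s1 (s2 k)) i)
    (v i) (G i) (fun k => hu _ i) (fun k => hD _ i) (fun k => hw _ i) (hv i) (hG i) (hwv i)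
    (fun k => hub _ i) (fun k => hDb _ i) (fun g hg => hv2 i g (memLp_cont hg))
  set Ψ : ℕ → E n → ℝ := fun k x => ∑ i, |(R - ‖x‖) * (u (s1 (s2 k)) i x - v i x)| with hΨ
  have hterm : ∀ k i, AEStronglyMeasurable
      (fun x => |(R - ‖x‖) * (u (s1 (s2 k)) i x - v i x)|) μ := by
    intro k i
    have h1 : AEStronglyMeasurable (fun x : E n => R - ‖x‖) μ :=
      (continuous_const.sub continuous_norm).aestronglyMeasurable
    exact (h1.mul ((hu _ i).1.sub (hv i).1)).norm
  have hΨm : ∀ k, AEStronglyMeasurable (Ψ k) μ := fun k =>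
    Finset.aestronglyMeasurable_fun_sum _ fun i _ => hterm k i
  have hΨt : Tendsto (fun k => eLpNorm (Ψ k - 0) 1 μ) atTop (𝓝 0) := by
    have h1 : Tendsto (fun k => ∑ i, ∫⁻ x, ‖(R - ‖x‖) * (u (s1 (s2 k)) i x - v i x)‖ₑ ∂μ) atTop
        (𝓝 (∑ _i : ι, 0)) := tendsto_finsetSum _ fun i _ => hst i
    rw [Finset.sum_const_zero] at h1
    refine tendsto_of_tendsto_of_tendsto_of_le_of_le tendsto_const_nhds h1 (fun _ => bot_le)
      fun k => ?_
    rw [sub_zero, eLpNorm_one_eq_lintegral_enorm]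
    calc ∫⁻ x, ‖Ψ k x‖ₑ ∂μ ≤ ∫⁻ x, ∑ i, ‖(R - ‖x‖) * (u (s1 (s2 k)) i x - v i x)‖ₑ ∂μ := by
          refine lintegral_mono fun x => ?_
          refine (enorm_sum_le _ _).trans (Finset.sum_le_sum fun i _ => ?_)
          rw [← ofReal_norm, Real.norm_eq_abs, abs_abs, ← Real.norm_eq_abs, ofReal_norm]
      _ = ∑ i, ∫⁻ x, ‖(R - ‖x‖) * (u (s1 (s2 k)) i x - v i x)‖ₑ ∂μ := by
          refine lintegral_finsetSum' _ fun i _ => ?_
          have h2 : AEStronglyMeasurable (fun x : E n => R - ‖x‖) μ :=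
            (continuous_const.sub continuous_norm).aestronglyMeasurable
          exact (h2.mul ((hu _ i).1.sub (hv i).1)).enorm
  have hTM := tendstoInMeasure_of_tendsto_eLpNorm (by norm_num) hΨm aestronglyMeasurable_zero hΨt
  obtain ⟨s3, hs3, hae⟩ := hTM.exists_seq_tendsto_ae
  refine ⟨v, G, fun k => s1 (s2 (s3 k)), hs1.comp (hs2.comp hs3), hv, hG, hwv, ?_, ?_⟩
  · filter_upwards [hae, ae_restrict_mem measurableSet_ball] with x hx hxb
    intro i
    rw [mem_ball, dist_zero_right] at hxb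
    have hpos : 0 < R - ‖x‖ := by linarith
    have h1 : Tendsto (fun k => |(R - ‖x‖) * (u (s1 (s2 (s3 k))) i x - v i x)|) atTop (𝓝 0) := by
      refine squeeze_zero (fun k => abs_nonneg _) (fun k => ?_) hx
      exact Finset.single_le_sum (f := fun i =>
        |(R - ‖x‖) * (u (s1 (s2 (s3 k))) i x - v i x)|) (fun j _ => abs_nonneg _)
        (Finset.mem_univ i)
    have h2 : Tendsto (fun k => (R - ‖x‖) * (u (s1 (s2 (s3 k))) i x - v i x)) atTop (𝓝 0) :=
      (tendsto_zero_iff_abs_tendsto_zero _).2 h1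
    have h3 := h2.const_mul (R - ‖x‖)⁻¹
    rw [mul_zero] at h3
    have h4 : Tendsto (fun k => u (s1 (s2 (s3 k))) i x - v i x) atTop (𝓝 0) := by
      refine h3.congr fun k => ?_
      rw [← mul_assoc, inv_mul_cancel₀ hpos.ne', one_mul]
    simpa using h4.add_const (v i x)
  · intro i h hh
    exact (hGw i h hh).comp hs3.tendsto_atTop

end Pool.Agent.H30.RG
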