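import Pool.Agent.H30.RG.MO3
import Pool.Agent.H30.RG.HW

/-!
Rellich's theorem on a ball, for finite families of functions.
(REG, part B, MP_2697e3_an)
-/

set_option autoImplicit false

namespace Pool.Agent.H30.RG

open MeasureTheory Filter Topology Set Metric Pool.Agent.H87.SN Pool.Agent.H48.RG
open scoped RealInnerProductSpace ENNReal ContDiff Convolution

instance finBall (n : ℕ) (R : ℝ) : IsFiniteMeasure (volume.restrict (ball (0 : E n) R)) :=
  ⟨by rw [Measure.restrict_apply_univ]; exact measure_ball_lt_top⟩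

/-- bounded continuous functions are in `L^2` of a ball -/
theorem memLp_cont {n : ℕ} {R : ℝ} {F : Type*} [NormedAddCommGroup F] {g : E n → F}
    (hg : Continuous g) : MemLp g 2 (volume.restrict (ball (0 : E n) R)) := by
  obtain ⟨C, hC⟩ := (isCompact_closedBall (0 : E n) R).exists_bound_of_continuousOn hg.continuousOn
  refine MemLp.of_bound hg.aestronglyMeasurable C ?_
  filter_upwards [ae_restrict_mem measurableSet_ball] with x hx
  exact hC x (ball_subset_closedBall hx)

theorem lint_le {α F : Type*} [MeasurableSpace α] {μ : Measure α} [NormedAddCommGroup F]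
    {f : α → F} {C : ℝ} (hf : MemLp f 2 μ) (hC : ∫ x, ‖f x‖ ^ 2 ∂μ ≤ C) :
    ∫⁻ x, ‖f x‖ₑ ∂μ ≤ μ univ + ENNReal.ofReal C := by
  have h1 : ∫⁻ x, ‖f x‖ₑ ^ 2 ∂μ = ENNReal.ofReal (∫ x, ‖f x‖ ^ 2 ∂μ) := by
    rw [ofReal_integral_eq_lintegral_ofReal (hf.integrable_norm_pow (by norm_num))
      (Eventually.of_forall fun x => by positivity)]
    refine lintegral_congr fun x => ?_
    rw [ENNReal.ofReal_pow (norm_nonneg _), ofReal_norm]
  calc ∫⁻ x, ‖f x‖ₑ ∂μ ≤ ∫⁻ x, (1 + ‖f x‖ₑ ^ 2) ∂μ := by
        refine lintegral_mono fun x => ?_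
        rw [← ofReal_norm, ← ENNReal.ofReal_pow (norm_nonneg _), ← ENNReal.ofReal_one,
          ← ENNReal.ofReal_add (by norm_num) (by positivity)]
        refine ENNReal.ofReal_le_ofReal ?_
        nlinarith [sq_nonneg (‖f x‖ - 1), norm_nonneg (f x)]
    _ = μ univ + ∫⁻ x, ‖f x‖ₑ ^ 2 ∂μ := by
        rw [lintegral_add_left measurable_const, lintegral_one]
    _ ≤ μ univ + ENNReal.ofReal C := by
        rw [h1]
        gcongr

/-- weak convergence with bounded gradients implies strong convergence, with a weight -/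
theorem weak_strong {n : ℕ} {R C : ℝ} (hR : 0 < R) (u : ℕ → E n → ℝ) (D : ℕ → E n → E n)
    (v : E n → ℝ) (G : E n → E n)
    (hu : ∀ k, MemLp (u k) 2 (volume.restrict (ball (0 : E n) R)))
    (hD : ∀ k, MemLp (D k) 2 (volume.restrict (ball (0 : E n) R)))
    (hw : ∀ k, WG (ball 0 R) (u k) (D k))
    (hv : MemLp v 2 (volume.restrict (ball (0 : E n) R)))
    (hG : MemLp G 2 (volume.restrict (ball (0 : E n) R))) (hwv : WG (ball 0 R) v G)
    (hub : ∀ k, ∫ x in ball (0 : E n) R, ‖u k x‖ ^ 2 ≤ C)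
    (hDb : ∀ k, ∫ x in ball (0 : E n) R, ‖D k x‖ ^ 2 ≤ C)
    (hweak : ∀ g : E n → ℝ, Continuous g →
      Tendsto (fun k => ∫ x in ball (0 : E n) R, u k x * g x) atTop
        (𝓝 (∫ x in ball (0 : E n) R, v x * g x))) :
    Tendsto (fun k => ∫⁻ x in ball (0 : E n) R, ‖(R - ‖x‖) * (u k x - v x)‖ₑ) atTop (𝓝 0) := by
  set μ : Measure (E n) := volume.restrict (ball (0 : E n) R) with hμ
  have hμf : μ univ < ⊤ := by
    rw [hμ, Measure.restrict_apply_univ]
    exact measure_ball_lt_top
  have : IsFiniteMeasure μ := ⟨hμf⟩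
  set M : ℝ≥0∞ := μ univ + ENNReal.ofReal C + (∫⁻ x, ‖v x‖ₑ ∂μ) + ∫⁻ x, ‖G x‖ₑ ∂μ with hM
  have hvI : Integrable v μ := hv.integrable (by norm_num)
  have hGI : Integrable G μ := hG.integrable (by norm_num)
  have huI : ∀ k, Integrable (u k) μ := fun k => (hu k).integrable (by norm_num)
  have hDI : ∀ k, Integrable (D k) μ := fun k => (hD k).integrable (by norm_num)
  have hMt : M < ⊤ := by
    rw [hM]
    refine ENNReal.add_lt_top.2 ⟨ENNReal.add_lt_top.2 ⟨ENNReal.add_lt_top.2 ⟨hμf,
      ENNReal.ofReal_lt_top⟩, hvI.2⟩, hGI.2⟩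
  have hu1 : ∀ k, ∫⁻ x, ‖u k x‖ₑ ∂μ ≤ M := fun k =>
    (lint_le (hu k) (hub k)).trans (by rw [hM, add_assoc]; exact le_self_add)
  have hD1 : ∀ k, ∫⁻ x, ‖D k x‖ₑ ∂μ ≤ M := fun k =>
    (lint_le (hD k) (hDb k)).trans (by rw [hM, add_assoc]; exact le_self_add)
  have hv1 : ∫⁻ x, ‖v x‖ₑ ∂μ ≤ M := by
    rw [hM]
    exact le_add_right le_add_self
  have hG1 : ∫⁻ x, ‖G x‖ₑ ∂μ ≤ M := by
    rw [hM]
    exact le_add_self
  -- the estimate for a fixed scale
  have key : ∀ h : ℝ, 0 < h → h < R → ∃ B : ℕ → ℝ≥0∞, Tendsto B atTop (𝓝 0) ∧ ∀ k,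
      ∫⁻ x, ‖(R - ‖x‖) * (u k x - v x)‖ₑ ∂μ ≤
        B k + ENNReal.ofReal h * (ENNReal.ofReal R * (2 * M) + 2 * M) := by
    intro h hh hhR
    set b : ContDiffBump (0 : E n) := bmp n (h / 2) (by linarith) with hb
    set κ : E n → ℝ := b.normed volume with hκ
    have hκc : ContDiff ℝ ∞ κ := b.contDiff_normed (n := ⊤)
    have hκs : tsupport κ ⊆ closedBall 0 (h / 2) := (b.tsupport_normed_eq (μ := volume)).le
    have hκi : ∫ x, κ x = 1 := b.integral_normed
    have hκ1 : ∫⁻ x, ‖κ x‖ₑ ≤ 1 := (lint_bump b).le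
    have hκcc : HasCompactSupport κ := b.hasCompactSupport_normed
    obtain ⟨K, hK⟩ := hκcc.exists_bound_of_continuous hκc.continuous
    have hsub : ball (0 : E n) (R - h) ⊆ ball 0 R := ball_subset_ball (by linarith)
    -- the mollified functions converge
    set B0 : ℕ → ℝ≥0∞ := fun k => ∫⁻ x in ball (0 : E n) (R - h), ‖ml κ R (u k) x - ml κ R v x‖ₑ
      with hB0
    have hB0t : Tendsto B0 atTop (𝓝 0) := by
      have h1 : Tendsto B0 atTop (𝓝 (∫⁻ x in ball (0 : E n) (R - h), (0 : ℝ≥0∞))) := by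
        refine tendsto_lintegral_of_dominated_convergence
          (fun _ => ENNReal.ofReal K * M + ENNReal.ofReal K * M) (fun k => ?_) (fun k => ?_) ?_ ?_
        · exact ((contDiff_ml hκc hκcc (huI k)).continuous.sub
            (contDiff_ml hκc hκcc hvI).continuous).measurable.enorm
        · refine Eventually.of_forall fun x => ?_
          have h2 : ∀ g : E n → ℝ, ∫⁻ y, ‖g y‖ₑ ∂μ ≤ M → ‖ml κ R g x‖ₑ ≤ ENNReal.ofReal K * M := by
            intro g hg
            refine (enorm_integral_le_lintegral_enorm _).trans ?_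
            calc ∫⁻ y, ‖κ (x - y) * g y‖ₑ ∂μ ≤ ∫⁻ y, ENNReal.ofReal K * ‖g y‖ₑ ∂μ := by
                  refine lintegral_mono fun y => ?_
                  rw [enorm_mul]
                  refine mul_le_mul' ?_ le_rfl
                  rw [← ofReal_norm]
                  exact ENNReal.ofReal_le_ofReal (hK _)
              _ = ENNReal.ofReal K * ∫⁻ y, ‖g y‖ₑ ∂μ := lintegral_const_mul' _ _ ENNReal.ofReal_ne_top
              _ ≤ ENNReal.ofReal K * M := mul_le_mul' le_rfl hg
          exact (enorm_sub_le).trans (add_le_add (h2 _ (hu1 k)) (h2 _ hv1))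
        · rw [lintegral_const]
          refine ENNReal.mul_ne_top ?_ ?_
          · exact ENNReal.add_ne_top.2 ⟨ENNReal.mul_ne_top ENNReal.ofReal_ne_top hMt.ne,
              ENNReal.mul_ne_top ENNReal.ofReal_ne_top hMt.ne⟩
          · rw [Measure.restrict_apply_univ]
            exact measure_ball_lt_top.ne
        · refine Eventually.of_forall fun x => ?_
          have h3 := hweak (fun y => κ (x - y)) (hκc.continuous.comp (by fun_prop))
          have h4 : Tendsto (fun k => ml κ R (u k) x - ml κ R v x) atTop (𝓝 0) := by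
            have h5 : Tendsto (fun k => ml κ R (u k) x) atTop (𝓝 (ml κ R v x)) := by
              simp only [ml]
              simpa only [mul_comm] using h3
            simpa using h5.sub_const (ml κ R v x)
          have h6 := (continuous_enorm.tendsto (0 : ℝ)).comp h4
          rw [enorm_zero] at h6
          exact h6
      simpa using h1
    refine ⟨fun k => ENNReal.ofReal R * B0 k, ?_, fun k => ?_⟩
    · have := ENNReal.Tendsto.const_mul (a := ENNReal.ofReal R) hB0t (Or.inr ENNReal.ofReal_ne_top)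
      simpa using this
    · -- the inner part
      have hA : ∫⁻ x in ball (0 : E n) (R - h), ‖u k x - v x‖ₑ ≤
          B0 k + ENNReal.ofReal h * (2 * M) := by
        have e1 := ml_sub (h := h) hκc hκs (by linarith) hκi hκ1 (huI k) (hDI k) (hw k)
        have e2 := ml_sub (h := h) hκc hκs (by linarith) hκi hκ1 hvI hGI hwv
        have hh2 : ENNReal.ofReal (h / 2) ≤ ENNReal.ofReal h := ENNReal.ofReal_le_ofReal (by linarith)
        have e3 : ∫⁻ x in ball (0 : E n) (R - h), ‖ml κ R (u k) x - u k x‖ₑ ≤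
            ENNReal.ofReal h * M := by
          refine le_trans (le_of_eq ?_) (e1.trans (mul_le_mul' hh2 (hD1 k)))
          refine setLIntegral_congr_fun measurableSet_ball fun x hx => ?_
          simp only [indicator_of_mem (hsub hx)]
        have e4 : ∫⁻ x in ball (0 : E n) (R - h), ‖ml κ R v x - v x‖ₑ ≤
            ENNReal.ofReal h * M := by
          refine le_trans (le_of_eq ?_) (e2.trans (mul_le_mul' hh2 hG1))
          refine setLIntegral_congr_fun measurableSet_ball fun x hx => ?_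
          simp only [indicator_of_mem (hsub hx)]
        have m1 : AEMeasurable (fun x => ‖ml κ R (u k) x - u k x‖ₑ)
            (volume.restrict (ball (0 : E n) (R - h))) := by
          refine AEStronglyMeasurable.enorm ?_
          exact (contDiff_ml hκc hκcc (huI k)).continuous.aestronglyMeasurable.sub
            ((huI k).aestronglyMeasurable.mono_measure (Measure.restrict_mono hsub le_rfl))
        have m2 : AEMeasurable (fun x => ‖ml κ R (u k) x - ml κ R v x‖ₑ)
            (volume.restrict (ball (0 : E n) (R - h))) :=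
          ((contDiff_ml hκc hκcc (huI k)).continuous.sub
            (contDiff_ml hκc hκcc hvI).continuous).measurable.enorm.aemeasurable
        calc ∫⁻ x in ball (0 : E n) (R - h), ‖u k x - v x‖ₑ
            ≤ ∫⁻ x in ball (0 : E n) (R - h), (‖ml κ R (u k) x - u k x‖ₑ +
              (‖ml κ R (u k) x - ml κ R v x‖ₑ + ‖ml κ R v x - v x‖ₑ)) := by
              refine lintegral_mono fun x => ?_
              have h6 : u k x - v x = -(ml κ R (u k) x - u k x) +
                  ((ml κ R (u k) x - ml κ R v x) + (ml κ R v x - v x)) := by ring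
              rw [h6]
              refine (enorm_add_le _ _).trans ?_
              rw [enorm_neg]
              exact add_le_add le_rfl (enorm_add_le _ _)
          _ = (∫⁻ x in ball (0 : E n) (R - h), ‖ml κ R (u k) x - u k x‖ₑ) +
              (B0 k + ∫⁻ x in ball (0 : E n) (R - h), ‖ml κ R v x - v x‖ₑ) := by
              rw [lintegral_add_left' m1, lintegral_add_left' m2]
          _ ≤ ENNReal.ofReal h * M + (B0 k + ENNReal.ofReal h * M) :=
              add_le_add e3 (add_le_add le_rfl e4)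
          _ = B0 k + ENNReal.ofReal h * (2 * M) := by ring
      have hO : ∫⁻ x in ball (0 : E n) R \ ball (0 : E n) (R - h), ‖u k x - v x‖ₑ ≤ 2 * M := by
        have m3 : AEMeasurable (fun x => ‖u k x‖ₑ) μ := (huI k).aestronglyMeasurable.enorm
        calc ∫⁻ x in ball (0 : E n) R \ ball (0 : E n) (R - h), ‖u k x - v x‖ₑ
            ≤ ∫⁻ x, ‖u k x - v x‖ₑ ∂μ := lintegral_mono_set sdiff_subset
          _ ≤ ∫⁻ x, (‖u k x‖ₑ + ‖v x‖ₑ) ∂μ := lintegral_mono fun x => enorm_sub_le
          _ = (∫⁻ x, ‖u k x‖ₑ ∂μ) + ∫⁻ x, ‖v x‖ₑ ∂μ := lintegral_add_left' m3 _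
          _ ≤ M + M := add_le_add (hu1 k) hv1
          _ = 2 * M := by ring
      have hsplit : ∫⁻ x, ‖(R - ‖x‖) * (u k x - v x)‖ₑ ∂μ =
          (∫⁻ x in ball (0 : E n) (R - h), ‖(R - ‖x‖) * (u k x - v x)‖ₑ) +
          ∫⁻ x in ball (0 : E n) R \ ball (0 : E n) (R - h), ‖(R - ‖x‖) * (u k x - v x)‖ₑ := by
        rw [hμ, ← lintegral_inter_add_sdiff _ (ball (0 : E n) R) measurableSet_ball (B := ball (0 : E n) (R - h)),
          inter_eq_self_of_subset_right hsub]
      rw [hsplit]
      have p1 : ∫⁻ x in ball (0 : E n) (R - h), ‖(R - ‖x‖) * (u k x - v x)‖ₑ ≤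
          ENNReal.ofReal R * (B0 k + ENNReal.ofReal h * (2 * M)) := by
        calc ∫⁻ x in ball (0 : E n) (R - h), ‖(R - ‖x‖) * (u k x - v x)‖ₑ
            ≤ ∫⁻ x in ball (0 : E n) (R - h), ENNReal.ofReal R * ‖u k x - v x‖ₑ := by
              refine setLIntegral_mono' measurableSet_ball fun x hx => ?_
              rw [enorm_mul]
              refine mul_le_mul' ?_ le_rfl
              rw [mem_ball, dist_zero_right] at hx
              rw [← ofReal_norm, Real.norm_eq_abs, abs_of_nonneg (by linarith)]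
              exact ENNReal.ofReal_le_ofReal (by linarith [norm_nonneg x])
          _ = ENNReal.ofReal R * ∫⁻ x in ball (0 : E n) (R - h), ‖u k x - v x‖ₑ :=
              lintegral_const_mul' _ _ ENNReal.ofReal_ne_top
          _ ≤ _ := mul_le_mul' le_rfl hA
      have p2 : ∫⁻ x in ball (0 : E n) R \ ball (0 : E n) (R - h), ‖(R - ‖x‖) * (u k x - v x)‖ₑ ≤
          ENNReal.ofReal h * (2 * M) := by
        calc ∫⁻ x in ball (0 : E n) R \ ball (0 : E n) (R - h), ‖(R - ‖x‖) * (u k x - v x)‖ₑ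
            ≤ ∫⁻ x in ball (0 : E n) R \ ball (0 : E n) (R - h), ENNReal.ofReal h * ‖u k x - v x‖ₑ := by
              refine setLIntegral_mono' (measurableSet_ball.diff measurableSet_ball) fun x hx => ?_
              rw [enorm_mul]
              refine mul_le_mul' ?_ le_rfl
              obtain ⟨hx1, hx2⟩ := hx
              rw [mem_ball, dist_zero_right] at hx1 hx2
              rw [← ofReal_norm, Real.norm_eq_abs, abs_of_nonneg (by linarith)]
              exact ENNReal.ofReal_le_ofReal (by linarith)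
          _ = ENNReal.ofReal h * ∫⁻ x in ball (0 : E n) R \ ball (0 : E n) (R - h), ‖u k x - v x‖ₑ :=
              lintegral_const_mul' _ _ ENNReal.ofReal_ne_top
          _ ≤ _ := mul_le_mul' le_rfl hO
      calc _ ≤ ENNReal.ofReal R * (B0 k + ENNReal.ofReal h * (2 * M)) +
            ENNReal.ofReal h * (2 * M) := add_le_add p1 p2
        _ = ENNReal.ofReal R * B0 k +
            ENNReal.ofReal h * (ENNReal.ofReal R * (2 * M) + 2 * M) := by ring
  -- conclusion
  rw [ENNReal.tendsto_nhds_zero]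
  intro ε hε
  have hε2 : 0 < ε / 2 := ENNReal.half_pos hε.ne'
  have hlim : Tendsto (fun h : ℝ => ENNReal.ofReal h * (ENNReal.ofReal R * (2 * M) + 2 * M))
      (𝓝[>] 0) (𝓝 0) := by
    have h1 : Tendsto (fun h : ℝ => ENNReal.ofReal h) (𝓝[>] 0) (𝓝 (ENNReal.ofReal 0)) :=
      (ENNReal.tendsto_ofReal tendsto_id).mono_left nhdsWithin_le_nhds
    have h2 := ENNReal.Tendsto.mul_const (b := ENNReal.ofReal R * (2 * M) + 2 * M) h1
      (Or.inr (ENNReal.add_ne_top.2 ⟨ENNReal.mul_ne_top ENNReal.ofReal_ne_top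
        (ENNReal.mul_ne_top (by norm_num) hMt.ne), ENNReal.mul_ne_top (by norm_num) hMt.ne⟩))
    simpa using h2
  have hev := (ENNReal.tendsto_nhds_zero.1 hlim) (ε / 2) hε2
  have hev2 : ∀ᶠ h : ℝ in 𝓝[>] 0, 0 < h ∧ h < R := by
    filter_upwards [self_mem_nhdsWithin, Ioo_mem_nhdsGT hR] with h h1 h2
    exact ⟨h1, h2.2⟩
  obtain ⟨h, h1, h2, h3⟩ := (hev.and hev2).exists
  obtain ⟨B, hB, hBk⟩ := key h h2 h3
  filter_upwards [(ENNReal.tendsto_nhds_zero.1 hB) (ε / 2) hε2] with k hk
  calc _ ≤ B k + ENNReal.ofReal h * (ENNReal.ofReal R * (2 * M) + 2 * M) := hBk k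
    _ ≤ ε / 2 + ε / 2 := add_le_add hk h1
    _ = ε := ENNReal.add_halves ε

end Pool.Agent.H30.RG
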